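import Pool.Agent.Helper76.TK2.StA

/-!
# Project TK2, module INTG: integrality of psi, any p, sign c (model: module INT of project WK)
-/

set_option autoImplicit false

namespace Pool.Agent.Helper43.TK2

open Pool.Agent.Helper76.TK2 Pool.Agent.Helper14.CV Pool.Agent.Helper14.TT
open Pool.Agent.Helper28.WK (SymP UIp)

/-- `ℂ` modulo the integers -/
private abbrev Q : Type := ℂ ⧸ (Int.castAddHom ℂ).range

private noncomputable def mk (x : ℂ) : Q := QuotientAddGroup.mk x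

private theorem mk_eq_zero {x : ℂ} : mk x = 0 ↔ ∃ n : ℤ, (n : ℂ) = x := by
  unfold mk
  rw [QuotientAddGroup.eq_zero_iff]
  rfl

private theorem mk_add (x y : ℂ) : mk (x + y) = mk x + mk y := rfl

private theorem mk_zsmul (c : ℤ) (x : ℂ) : mk (c • x) = c • mk x :=
  map_zsmul (QuotientAddGroup.mk' (Int.castAddHom ℂ).range) c x

theorem hIntG : StINTG := by
  intro hUI p m c ψ G hp hc hψ hG
  obtain ⟨k, hk⟩ := hG
  have hp0 : (p : ℤ) ≠ 0 := by
    have : p ≠ 0 := by omega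
    exact_mod_cast this
  have hcc : c * c = 1 := by rcases hc with rfl | rfl <;> norm_num
  have nz : ∀ {x y : ℤ}, (x ≠ 0 ∨ y ≠ 0) → ((p : ℤ) * x ≠ 0 ∨ y ≠ 0) := fun h =>
    h.imp (mul_ne_zero hp0) id
  have hk' : ∀ x y : ℤ, (x ≠ 0 ∨ y ≠ 0) → c • ψ (p * x) y - ψ x y = (G x y : ℂ) + k := by
    intro x y hxy
    have h1 := hk x y hxy
    have e : (c • act p 0 0 1 ψ - ψ) x y = c • ψ (p * x) y - ψ x y := by
      rw [Pi.sub_apply, Pi.sub_apply, Pi.smul_apply, Pi.smul_apply]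
      simp [act]
    rw [← e]
    exact h1
  -- the normalised equation
  have hn : ∀ x y : ℤ, (x ≠ 0 ∨ y ≠ 0) →
      c • (ψ (p * x) y - ψ 1 0) = (ψ x y - ψ 1 0) + ((G x y - G 1 0 : ℤ) : ℂ) := by
    intro x y hxy
    have h1 := hk' x y hxy
    have h2 := hk' 1 0 (Or.inl one_ne_zero)
    have h3 : ψ ((p : ℤ) * 1) 0 = ψ 1 0 := by
      have := hψ.1 p 1 0 hp0 (Or.inl one_ne_zero)
      simpa using this
    rw [h3] at h2
    rw [smul_sub]
    push_cast
    linear_combination h1 - h2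
  set χ : ℤ → ℤ → Q := fun x y => mk (ψ x y - ψ 1 0) with hχ
  have hS : SymP (p ^ 2) 0 m χ := by
    refine ⟨?_, ?_⟩
    · intro n x y hn' hxy
      simp only [hχ]
      rw [hψ.1 n x y hn' hxy]
    · intro a b c' d hdet hb hc'
      have hpm : (p : ℤ) ^ m ∣ c' := by
        refine Dvd.dvd.trans ?_ hc'
        have e : (((p ^ 2 : ℕ) : ℤ)) ^ m = (p : ℤ) ^ m * (p : ℤ) ^ m := by
          push_cast
          rw [← pow_mul, mul_comm 2 m, pow_mul, pow_two]
        rw [e]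
        exact Dvd.intro _ rfl
      obtain ⟨κ, hκ⟩ := hψ.2 a b c' d hdet (by rw [pow_zero]; exact one_dvd _) hpm
      refine ⟨mk κ, fun x y hxy => ?_⟩
      have h1 := hκ x y hxy
      simp only [hχ, act] at h1 ⊢
      rw [h1, ← mk_add]
      congr 1
      ring
  have hu1 : ∀ x y : ℤ, (x ≠ 0 ∨ y ≠ 0) → c • χ (p * x) y = χ x y := by
    intro x y hxy
    have h1 := hn x y hxy
    have h3 : mk (((G x y - G 1 0 : ℤ) : ℂ)) = 0 := mk_eq_zero.2 ⟨_, rfl⟩
    simp only [hχ]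
    rw [← mk_zsmul, h1, mk_add, h3, add_zero]
  have hu : EqC (act ((p ^ 2 : ℕ) : ℤ) 0 0 1 χ) χ := by
    refine ⟨0, fun x y hxy => ?_⟩
    have e : act ((p ^ 2 : ℕ) : ℤ) 0 0 1 χ x y = χ (p * (p * x)) y := by
      simp only [act]
      push_cast
      congr 1 <;> ring
    rw [e, add_zero]
    have h1 := hu1 x y hxy
    have h2 := hu1 (p * x) y (nz hxy)
    have h4 : (c * c) • χ (p * (p * x)) y = χ x y := by
      rw [mul_smul, h2, h1]
    rwa [hcc, one_smul] at h4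
  obtain ⟨c0, hc0⟩ := hUI (p ^ 2) (by nlinarith) Q inferInstance 0 m χ hS hu
  have hc00 : c0 = 0 := by
    have h1 := hc0 1 0 (Or.inl one_ne_zero)
    have h2 : χ 1 0 = 0 := by
      simp only [hχ]
      rw [sub_self]
      exact mk_eq_zero.2 ⟨0, by simp⟩
    rw [h2] at h1
    simpa using h1.symm
  have hex : ∀ x y : ℤ, ∃ n : ℤ, (x ≠ 0 ∨ y ≠ 0) → (n : ℂ) = ψ x y - ψ 1 0 := by
    intro x y
    by_cases hxy : x ≠ 0 ∨ y ≠ 0
    · have h1 := hc0 x y hxy
      rw [hc00] at h1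
      have h2 : mk (ψ x y - ψ 1 0) = 0 := by
        simpa [hχ] using h1
      obtain ⟨n, hn'⟩ := mk_eq_zero.1 h2
      exact ⟨n, fun _ => hn'⟩
    · exact ⟨0, fun h => absurd h hxy⟩
  choose ψ' hψ' using hex
  refine ⟨ψ', ⟨?_, ?_⟩, ?_⟩
  · intro n x y hn' hxy
    have h1 : (n * x ≠ 0 ∨ n * y ≠ 0) := by
      rcases hxy with h | h
      · exact Or.inl (mul_ne_zero hn' h)
      · exact Or.inr (mul_ne_zero hn' h)
    have h2 := hψ' (n * x) (n * y) h1
    have h3 := hψ' x y hxy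
    rw [hψ.1 n x y hn' hxy, ← h3] at h2
    exact_mod_cast h2
  · intro a b c' d hdet hb hc'
    obtain ⟨κ, hκ⟩ := hψ.2 a b c' d hdet hb hc'
    have key : ∀ x y : ℤ, (x ≠ 0 ∨ y ≠ 0) →
        ((ψ' (a * x + b * y) (c' * x + d * y) : ℤ) : ℂ) = (ψ' x y : ℂ) + κ := by
      intro x y hxy
      have h1 := hκ x y hxy
      have h2 := hψ' (a * x + b * y) (c' * x + d * y)
        (ne_zero_of_det (by rw [hdet]; exact one_ne_zero) hxy)
      have h3 := hψ' x y hxy
      simp only [act] at h1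
      rw [h2, h3, h1]
      ring
    refine ⟨ψ' (a * 1 + b * 0) (c' * 1 + d * 0) - ψ' 1 0, fun x y hxy => ?_⟩
    have h1 := key x y hxy
    have h2 := key 1 0 (Or.inl one_ne_zero)
    have h3 : ((ψ' (a * x + b * y) (c' * x + d * y) : ℤ) : ℂ) =
        ((ψ' x y + (ψ' (a * 1 + b * 0) (c' * 1 + d * 0) - ψ' 1 0) : ℤ) : ℂ) := by
      push_cast
      rw [h1, h2]
      ring
    exact_mod_cast h3
  · refine ⟨-G 1 0, fun x y hxy => ?_⟩
    have h1 := hn x y hxy
    have h2 := hψ' (p * x) y (nz hxy)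
    have h3 := hψ' x y hxy
    have h4 : ((c * ψ' (p * x) y - ψ' x y : ℤ) : ℂ) = ((G x y + -G 1 0 : ℤ) : ℂ) := by
      rw [← h2, ← h3, zsmul_eq_mul] at h1
      push_cast at h1 ⊢
      linear_combination h1
    have h5 : c * ψ' (p * x) y - ψ' x y = G x y + -G 1 0 := by exact_mod_cast h4
    have e : (c • act p 0 0 1 ψ' - ψ') x y = c * ψ' (p * x) y - ψ' x y := by
      rw [Pi.sub_apply, Pi.sub_apply, Pi.smul_apply, Pi.smul_apply]
      simp [act]
    rw [e]
    exact h5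

end Pool.Agent.Helper43.TK2
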